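import Pool.Agent.Lib.MP_43d240_ag.FZ.Iface

/-!
PROJECT PI (MP_43d240_ag), frozen side, module KSQ: in a chart no product of the `r_(j,l)` over a
nonempty set lies in `k(x)`.
-/

set_option autoImplicit false
set_option linter.all false

open MvPolynomial

namespace Pool.Agent.PI.FZ.H30

theorem ksq : KSQ_S := by
  intro k L J Λ _ _ _ _ _ _ _ x g lam r hc w hw hmem
  classical
  have hinj : Function.Injective (aeval (R := k) x) := hc.alg
  -- the members of the family are not zero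
  have hg0 : ∀ p : J × Λ, g p.1 p.2 ≠ 0 := by
    intro p h0
    refine hc.nsq {p} ⟨p, Finset.mem_singleton_self p⟩ 0 1 one_ne_zero ?_
    rw [Finset.prod_singleton]
    simp [h0]
  have hG0 : ∀ p : J × Λ, aeval x (g p.1 p.2) ≠ 0 := by
    intro p h0
    exact hg0 p (hinj (by rw [h0, map_zero]))
  have hr0 : ∀ p : J × Λ, r p.1 p.2 ≠ 0 := by
    intro p h0
    apply hG0 p
    rw [← hc.sq p.1 p.2, h0]
    ring
  have hP0 : ∏ i ∈ w, r i.1.1 i.1.2 ≠ 0 := Finset.prod_ne_zero_iff.2 fun i _ => hr0 i.1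
  obtain ⟨p, q, hpq⟩ := (IntermediateField.mem_adjoin_range_iff k x _).1 hmem
  have hqx : aeval x q ≠ 0 := by
    intro h0
    rw [h0, div_zero] at hpq
    exact hP0 hpq
  have hq : q ≠ 0 := by
    rintro rfl
    exact hqx (map_zero _)
  -- squares
  have h1 : (∏ i ∈ w, r i.1.1 i.1.2) ^ 2 * ∏ i ∈ w, aeval x (g i.1.1 (lam i.1.1)) =
      ∏ i ∈ w, aeval x (g i.1.1 i.1.2) := by
    rw [← Finset.prod_pow, ← Finset.prod_mul_distrib]
    exact Finset.prod_congr rfl fun i _ => hc.sq i.1.1 i.1.2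
  have h2 : p ^ 2 * ∏ i ∈ w, g i.1.1 (lam i.1.1) = q ^ 2 * ∏ i ∈ w, g i.1.1 i.1.2 := by
    apply hinj
    rw [map_mul, map_mul, map_pow, map_pow, map_prod, map_prod, ← h1, hpq]
    field_simp
  -- parities
  let n : J → ℕ := fun j => (w.filter (fun i => i.1.1 = j)).card
  have h3 : ∏ i ∈ w, g i.1.1 (lam i.1.1) = ∏ j, g j (lam j) ^ n j := by
    rw [← Finset.prod_fiberwise' w (fun i : Idx lam => i.1.1) (fun j => g j (lam j))]
    exact Finset.prod_congr rfl fun j _ => by rw [Finset.prod_const]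
  let O : Finset J := Finset.univ.filter (fun j => Odd (n j))
  have h4 : ∏ j ∈ O, g j (lam j) = ∏ j, g j (lam j) ^ (if Odd (n j) then 1 else 0) := by
    rw [Finset.prod_filter]
    refine Finset.prod_congr rfl fun j _ => ?_
    split_ifs <;> simp
  let T : Finset (J × Λ) := O.image (fun j => (j, lam j))
  let W : Finset (J × Λ) := w.image Subtype.val
  have hdis : Disjoint W T := by
    rw [Finset.disjoint_left]
    intro a ha hb
    obtain ⟨i, -, rfl⟩ := Finset.mem_image.1 ha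
    obtain ⟨j, -, hj⟩ := Finset.mem_image.1 hb
    apply i.2
    rw [← hj]
  have h5 : ∏ a ∈ W ∪ T, g a.1 a.2 = (∏ i ∈ w, g i.1.1 i.1.2) * ∏ j ∈ O, g j (lam j) := by
    rw [Finset.prod_union hdis, Finset.prod_image (fun a _ b _ hab => Subtype.ext hab),
      Finset.prod_image (fun a _ b _ hab => (Prod.mk.inj hab).1)]
  have h6 : (∏ j, g j (lam j) ^ n j) * (∏ j ∈ O, g j (lam j)) =
      (∏ j, g j (lam j) ^ ((n j + 1) / 2)) ^ 2 := by
    rw [h4, ← Finset.prod_mul_distrib, ← Finset.prod_pow]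
    refine Finset.prod_congr rfl fun j _ => ?_
    rw [← pow_add, ← pow_mul]
    congr 1
    split_ifs with hodd
    · obtain ⟨t, ht⟩ := hodd
      omega
    · rw [Nat.not_odd_iff_even] at hodd
      obtain ⟨t, ht⟩ := hodd
      omega
  obtain ⟨i0, hi0⟩ := hw
  refine hc.nsq (W ∪ T) ⟨i0.1, Finset.mem_union_left _ (Finset.mem_image_of_mem _ hi0)⟩
    (p * ∏ j, g j (lam j) ^ ((n j + 1) / 2)) q hq ?_
  rw [h5, mul_pow, ← h6, ← h3]
  linear_combination (-(∏ j ∈ O, g j (lam j))) * h2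

end Pool.Agent.PI.FZ.H30
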