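import Pool.Agent.Lib.MP_43d240_ag.FZ.Iface

/-!
PROJECT PI (MP_43d240_ag), frozen side, module ROWS: the Jacobian matrix of the relations has full
rank at every point.
-/

set_option autoImplicit false
set_option linter.all false

open MvPolynomial

namespace Pool.Agent.PI.FZ.H30

theorem pderiv_inr_rename {k α β : Type} [Field k] (b : β) (f : MvPolynomial α k) :
    pderiv (Sum.inr b) (rename (Sum.inl : α → α ⊕ β) f) = 0 := by
  classical
  apply pderiv_eq_zero_of_notMem_vars
  intro h
  have h2 := vars_rename (Sum.inl : α → α ⊕ β) f h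
  rw [Finset.mem_image] at h2
  obtain ⟨a, -, ha⟩ := h2
  exact Sum.inl_ne_inr ha

theorem rows : ROWS_S := by
  intro k J Λ _ _ h2 _ _ _ _ hcard g lam hGP P hP
  classical
  set a : Fin 3 → k := fun v => P (Sum.inl v) with ha
  have hev : ∀ f : MvPolynomial (Fin 3) k, eval P (rename Sum.inl f) = eval a f := by
    intro f
    rw [eval_rename]
    rfl
  have hrel : ∀ i : Idx lam, eval a (g i.1.1 (lam i.1.1)) * P (Sum.inr i) ^ 2 =
      eval a (g i.1.1 i.1.2) := by
    intro i
    have := hP i
    unfold rel at this
    rw [map_sub, map_mul, map_pow, hev, hev, eval_X] at this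
    exact sub_eq_zero.1 this
  -- the leading coefficients do not vanish
  have hlam : ∀ j, eval a (g j (lam j)) ≠ 0 := by
    intro j h0
    have hall : ∀ l, eval a (g j l) = 0 := by
      intro l
      by_cases hl : l = lam j
      · rw [hl, h0]
      · rw [← hrel ⟨(j, l), hl⟩, h0, zero_mul]
    have hli := (hGP a).comp (fun l : Λ => ⟨(j, l), hall l⟩) (by
      intro l l' h
      have := congrArg Subtype.val h
      exact (Prod.mk.inj this).2)
    have := hli.fintype_card_le_finrank
    rw [Module.finrank_fin_fun] at this
    omega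
  rw [Fintype.linearIndependent_iff]
  intro c hc
  -- the part in the square roots
  have hc1 : ∀ i, c i * P (Sum.inr i) = 0 := by
    intro i
    have h := congrFun hc (Sum.inr i)
    rw [Finset.sum_apply, Finset.sum_eq_single i] at h
    · rw [Pi.smul_apply, smul_eq_mul, Pi.zero_apply] at h
      unfold rel at h
      rw [map_sub, pderiv_inr_rename, sub_zero, pderiv_mul, pderiv_inr_rename, zero_mul, zero_add,
        pderiv_pow, pderiv_X_self] at h
      rw [map_mul, hev] at h
      simp only [map_mul, map_pow, eval_X, map_natCast, map_one, mul_one] at h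
      have h3 := hlam i.1.1
      have h4 : (eval a (g i.1.1 (lam i.1.1)) * 2) * (c i * P (Sum.inr i)) = 0 := by
        rw [← h]
        push_cast
        ring
      exact (mul_eq_zero.1 h4).resolve_left (mul_ne_zero h3 h2)
    · intro i' _ hne
      rw [Pi.smul_apply, smul_eq_mul]
      unfold rel
      rw [map_sub, pderiv_inr_rename, sub_zero, pderiv_mul, pderiv_inr_rename, zero_mul, zero_add,
        pderiv_pow, pderiv_X_of_ne (by
          intro h; exact hne (Sum.inr_injective h))]
      simp
    · intro h; exact absurd (Finset.mem_univ i) h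
  have hc2 : ∀ i, c i ≠ 0 → eval a (g i.1.1 i.1.2) = 0 := by
    intro i hi
    have h0 : P (Sum.inr i) = 0 := (mul_eq_zero.1 (hc1 i)).resolve_left hi
    rw [← hrel i, h0]
    ring
  -- the part in the coordinates
  have hc3 : ∀ v : Fin 3, ∑ i, c i * eval a (pderiv v (g i.1.1 i.1.2)) = 0 := by
    intro v
    have h := congrFun hc (Sum.inl v)
    rw [Finset.sum_apply, Pi.zero_apply] at h
    have h5 : ∀ i, (c i • fun v => eval P (pderiv v (rel g lam i))) (Sum.inl v) =
        - (c i * eval a (pderiv v (g i.1.1 i.1.2))) := by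
      intro i
      rw [Pi.smul_apply, smul_eq_mul]
      unfold rel
      rw [map_sub, pderiv_mul, pderiv_rename Sum.inl_injective, pderiv_rename Sum.inl_injective,
        pderiv_pow, pderiv_X_of_ne (by
          intro h; exact Sum.inr_ne_inl h), mul_zero, mul_zero, add_zero, map_sub, map_mul, hev,
        hev, map_pow, eval_X]
      linear_combination (eval a (pderiv v (g i.1.1 (lam i.1.1)))) * P (Sum.inr i) * hc1 i
    rw [Finset.sum_congr rfl fun i _ => h5 i, Finset.sum_neg_distrib, neg_eq_zero] at h
    exact h
  have hli := (hGP a).comp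
    (fun i : {i : Idx lam // eval a (g i.1.1 i.1.2) = 0} =>
      (⟨i.1.1, i.2⟩ : {p : J × Λ // eval a (g p.1 p.2) = 0})) (by
      intro i i' h
      have := congrArg Subtype.val h
      exact Subtype.ext (Subtype.ext this))
  rw [Fintype.linearIndependent_iff] at hli
  have h6 := hli (fun i => c i.1) (by
    funext v
    rw [Finset.sum_apply, Pi.zero_apply]
    refine Eq.trans ?_ (hc3 v)
    have h8 : ∑ i : {i : Idx lam // eval a (g i.1.1 i.1.2) = 0},
        c i.1 * eval a (pderiv v (g i.1.1.1 i.1.1.2)) =
        ∑ i, c i * eval a (pderiv v (g i.1.1 i.1.2)) := by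
      rw [← Finset.sum_subtype (Finset.univ.filter fun i : Idx lam =>
        eval a (g i.1.1 i.1.2) = 0) (fun i => by simp)
        (fun i => c i * eval a (pderiv v (g i.1.1 i.1.2)))]
      apply Finset.sum_filter_of_ne
      intro i _ hi
      exact hc2 i (left_ne_zero_of_mul hi)
    exact h8)
  intro i
  by_contra hne
  exact hne (h6 ⟨i, hc2 i hne⟩)

end Pool.Agent.PI.FZ.H30
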